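import Pool.Agent.Lib.helper5.Lat

open Set Filter Topology MeasureTheory

namespace Pool.Agent.Lib.helper5.Lat

variable {ι : Type} [Fintype ι]

theorem Good.hasCompactSupport {R : ℝ} {g : (ι → ℝ) → ℝ} (h : Good R g) : HasCompactSupport g :=
  HasCompactSupport.intro (isCompact_closedBall 0 R) fun x hx => h.supp x (by simpa using hx)

theorem Good.mean {R : ℝ} {g : (ι → ℝ) → ℝ} (h : Good R g) {t : ℝ} (ht : 0 < t) (z : ι → ℝ) :
    (∫ x, g x) / t ^ Fintype.card ι =
      ∫ w in ZSpan.fundamentalDomain (Pi.basisFun ℝ ι), P g t (z + w) := by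
  classical
  set b := Pi.basisFun ℝ ι with hb
  have hc := h.sm.continuous
  have hint : Integrable fun w => g (t • (z + w)) :=
    ((hc.integrable_of_hasCompactSupport h.hasCompactSupport).comp_smul ht.ne').comp_add_left z
  have e1 : ∫ w, g (t • (z + w)) = (∫ x, g x) / t ^ Fintype.card ι := by
    rw [integral_add_left_eq_self (fun w => g (t • w)) z, Measure.integral_comp_smul,
      Module.finrank_fintype_fun_eq_card, abs_of_pos (by positivity), smul_eq_mul, inv_mul_eq_div]
  have : VAddInvariantMeasure (Submodule.span ℤ (Set.range b)) (ι → ℝ) volume :=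
    inferInstanceAs (VAddInvariantMeasure (Submodule.span ℤ (Set.range b)).toAddSubgroup _ volume)
  have hD : ∀ w ∈ ZSpan.fundamentalDomain b, ‖z + w - z‖ ≤ 1 := by
    intro w hw
    rw [add_sub_cancel_left, pi_norm_le_iff_of_nonneg zero_le_one]
    intro i
    have := hw i
    simp only [hb, Pi.basisFun_repr] at this
    rw [Real.norm_of_nonneg this.1]; exact this.2.le
  have hm := ZSpan.fundamentalDomain_measurableSet b
  have hE : ∀ n : ι → ℤ, (((b.restrictScalars ℤ).equivFun.symm n :
      Submodule.span ℤ (Set.range b)) : ι → ℝ) = fun i => (n i : ℝ) := by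
    intro n
    ext i
    simp [hb, Finset.sum_apply, Pi.single_apply]
  rw [← e1, (ZSpan.isAddFundamentalDomain b volume).integral_eq_tsum'' _ hint,
    ← (b.restrictScalars ℤ).equivFun.symm.toEquiv.tsum_eq]
  have e2 : ∀ n : ι → ℤ, ∫ w in ZSpan.fundamentalDomain b,
      g (t • (z + ((b.restrictScalars ℤ).equivFun.symm.toEquiv n +ᵥ w))) =
      ∫ w in ZSpan.fundamentalDomain b, g (t • ((z + w) + fun i => (n i : ℝ))) := by
    intro n
    congr 1; ext w
    rw [← hE, add_assoc, add_comm w]; rfl
  rw [tsum_congr e2, tsum_eq_sum (s := box z (R / t + 1)), ← integral_finsetSum]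
  · exact setIntegral_congr_fun hm fun w hw => (hasSum_P h.supp ht (hD w hw)).tsum_eq.symm
  · intro n _
    have := hint.comp_add_right (fun i => (n i : ℝ))
    simp only [← add_assoc] at this
    exact this.integrableOn
  · intro n hn
    exact setIntegral_eq_zero_of_forall_eq_zero fun w hw => zero_of_not_mem h.supp ht (hD w hw) hn

theorem Good.continuous_P {R : ℝ} {g : (ι → ℝ) → ℝ} (h : Good R g) {t : ℝ} (ht : 0 < t) :
    Continuous (P g t) := by
  refine continuous_iff_continuousAt.2 fun z => ?_
  have h1 : ContinuousAt (fun w => ∑ n ∈ box z (R / t + 1), g (t • (w + fun i => (n i : ℝ)))) z :=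
    (continuous_finsetSum _ fun n _ => h.sm.continuous.comp (by fun_prop)).continuousAt
  refine h1.congr ?_
  filter_upwards [Metric.closedBall_mem_nhds z one_pos] with w hw
  exact (hasSum_P h.supp ht (by rwa [mem_closedBall_iff_norm] at hw)).tsum_eq.symm

/-- Lattice sums of a smooth compactly supported function approximate its integral up to an error
smaller than any power of the scale. -/
theorem Good.main_term {R : ℝ} (hR : 0 ≤ R) {g : (ι → ℝ) → ℝ} (h : Good R g) (j : ℕ) :
    ∃ C, ∀ t, 0 < t → t ≤ 1 → ∀ z,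
      |P g t z - (∫ x, g x) / t ^ Fintype.card ι| ≤ C * t ^ j := by
  classical
  obtain ⟨C, hC0, hC⟩ := h.osc_small hR j
  refine ⟨C, fun t ht ht1 z => ?_⟩
  have hv : volume.real (ZSpan.fundamentalDomain (Pi.basisFun ℝ ι)) = 1 := by
    rw [ZSpan.fundamentalDomain_pi_basisFun, measureReal_def, volume_pi, Measure.pi_pi]
    simp
  have hfin : volume (ZSpan.fundamentalDomain (Pi.basisFun ℝ ι)) < ⊤ :=
    (ZSpan.fundamentalDomain_isBounded _).measure_lt_top
  have hi : IntegrableOn (fun w => P g t (z + w)) (ZSpan.fundamentalDomain (Pi.basisFun ℝ ι)) :=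
    (((h.continuous_P ht).comp (continuous_const.add continuous_id)).continuousOn.integrableOn_compact
      (ZSpan.fundamentalDomain_isBounded _).isCompact_closure).mono_set subset_closure
  have e : (∫ x, g x) / t ^ Fintype.card ι - P g t z =
      ∫ w in ZSpan.fundamentalDomain (Pi.basisFun ℝ ι), (P g t (z + w) - P g t z) := by
    rw [integral_sub hi (integrableOn_const hfin.ne), ← h.mean ht, setIntegral_const, hv, one_smul]
  rw [abs_sub_comm, e, ← mul_one (C * t ^ j), ← hv, ← Real.norm_eq_abs]
  refine norm_setIntegral_le_of_norm_le_const hfin fun w hw => (hC t ht ht1 z w).trans ?_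
  refine mul_le_mul_of_nonneg_right (mul_le_of_le_one_right hC0 ?_) (by positivity)
  rw [pi_norm_le_iff_of_nonneg zero_le_one]
  intro i
  have := hw i
  simp only [Pi.basisFun_repr] at this
  rw [Real.norm_of_nonneg this.1]; exact this.2.le

end Pool.Agent.Lib.helper5.Lat
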