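import Pool.Agent.Lib.helper5.Mel

open Set Filter Topology MeasureTheory Complex Asymptotics

namespace Pool.Agent.Lib.helper5.Mel

/-- Admissible test functions. -/
structure Test (Ψ : ℝ → ℝ) : Prop where
  cont : ContinuousOn Ψ (Ioi 0)
  top : ∀ r, 2 ≤ r → Ψ r = 0
  bot : ∃ C, ∀ r, 0 < r → |Ψ r| ≤ C / r

theorem Test.abs {Ψ : ℝ → ℝ} (h : Test Ψ) : Test fun r => |Ψ r| :=
  ⟨h.cont.abs, fun r hr => by simp [h.top r hr], by simpa using h.bot⟩

theorem Test.mc {Ψ : ℝ → ℝ} (h : Test Ψ) {s : ℂ} (hs : 1 < s.re) :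
    MellinConvergent (fun r => (Ψ r : ℂ)) s := by
  obtain ⟨C, hC⟩ := h.bot
  refine mellinConvergent_of_isBigO_rpow (a := s.re + 1) (b := 1)
    ((continuous_ofReal.comp_continuousOn h.cont).locallyIntegrableOn measurableSet_Ioi)
    (isBigO_of_zero _ ?_) (by linarith) ?_ hs
  · filter_upwards [eventually_ge_atTop 2] with x hx
    rw [h.top x hx, ofReal_zero]
  · refine IsBigO.of_bound C ?_
    filter_upwards [self_mem_nhdsWithin] with x hx
    have hx0 : 0 < x := hx
    rw [norm_real, Real.norm_eq_abs, Real.rpow_neg_one, Real.norm_of_nonneg (inv_pos.2 hx0).le]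
    exact hC x hx0

section Family

variable {Y : Type} [Countable Y] {N : Y → ℝ} {Ψ : ℝ → ℝ}

/-- A smoothed counting function. -/
noncomputable def S2 (N : Y → ℝ) (Ψ : ℝ → ℝ) (T : ℝ) : ℝ := ∑' y, Ψ (T * N y)

variable (hΨ : Test Ψ) (hN : ∀ y, 1 ≤ N y)
  (hsum : ∀ σ : ℝ, 1 < σ → Summable fun y => N y ^ (-σ))
include hΨ hN hsum

theorem mellin_S2 {s : ℂ} (hs : 1 < s.re) :
    mellin (fun T => (S2 N Ψ T : ℂ)) s =
      (∑' y, (N y : ℂ) ^ (-s)) * mellin (fun r => (Ψ r : ℂ)) s := by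
  have hN0 : ∀ y, 0 < N y := fun y => one_pos.trans_le (hN y)
  have hnorm : ∀ y, ((∫ T in Ioi (0 : ℝ), ‖(T : ℂ) ^ (s - 1) • (Ψ (T * N y) : ℂ)‖ : ℝ) : ℂ)
      = (N y : ℂ) ^ (-(s.re : ℂ)) * mellin (fun r => ((|Ψ r| : ℝ) : ℂ)) s.re := by
    intro y
    rw [← smul_eq_mul, ← mellin_comp_mul_right (fun r => ((|Ψ r| : ℝ) : ℂ)) _ (hN0 y), mellin,
      ← integral_complex_ofReal]
    refine setIntegral_congr_fun measurableSet_Ioi fun X hX => ?_
    have hX0 : 0 < X := hX
    simp only [smul_eq_mul]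
    rw [norm_mul, norm_cpow_eq_rpow_re_of_pos hX0, norm_real, Real.norm_eq_abs, ofReal_mul,
      ofReal_cpow hX0.le]
    simp
  have hsm : ∀ (s : ℂ), 1 < s.re → Summable fun y => (N y : ℂ) ^ (-s) := by
    intro s hs
    refine Summable.of_norm_bounded (hsum _ hs) fun y => ?_
    rw [norm_cpow_eq_rpow_re_of_pos (hN0 y), neg_re]
  have hs2 : Summable fun y => ∫ T in Ioi (0 : ℝ), ‖(T : ℂ) ^ (s - 1) • (Ψ (T * N y) : ℂ)‖ := by
    rw [← summable_ofReal]
    simp only [hnorm]
    exact (hsm _ (by simpa using hs)).mul_right _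
  have h := hasSum_integral_of_summable_integral_norm (μ := volume.restrict (Ioi 0))
    (F := fun y (T : ℝ) => (T : ℂ) ^ (s - 1) • (Ψ (T * N y) : ℂ))
    (fun y => by
      have h1 := (MellinConvergent.comp_mul_left (hN0 y)).mpr (hΨ.mc hs)
      simp only [mul_comm (N y)] at h1
      exact h1) hs2
  refine HasSum.unique ?_ ((hsm s hs).hasSum.mul_right _)
  simp only [← smul_eq_mul, ← mellin_comp_mul_right (fun r => (Ψ r : ℂ)) s (hN0 _)]
  have e : mellin (fun T => (S2 N Ψ T : ℂ)) s = ∫ T in Ioi (0 : ℝ),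
      ∑' y, (T : ℂ) ^ (s - 1) • (Ψ (T * N y) : ℂ) := by
    rw [mellin]
    refine setIntegral_congr_fun measurableSet_Ioi fun X _ => ?_
    simp only [smul_eq_mul]
    rw [tsum_mul_left, S2, ofReal_tsum]
  rw [e]
  exact h

omit [Countable Y] in
theorem continuousOn_S2 : ContinuousOn (S2 N Ψ) (Ioi 0) := by
  obtain ⟨C, hC⟩ := hΨ.bot
  have hC0 : 0 ≤ C := by simpa using (abs_nonneg _).trans (hC 1 one_pos)
  have hb : ∀ r, 0 < r → |Ψ r| ≤ 2 * C / r ^ 2 := by
    intro r hr
    rcases le_total 2 r with h | h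
    · rw [hΨ.top r h, abs_zero]; positivity
    · refine (hC r hr).trans ?_
      rw [div_le_div_iff₀ hr (by positivity)]
      nlinarith [mul_nonneg hC0 hr.le]
  intro T hT
  have hT0 : 0 < T / 2 := half_pos hT
  have h : ContinuousOn (S2 N Ψ) (Ioi (T / 2)) := by
    refine continuousOn_tsum (u := fun y => 2 * C / (T / 2) ^ 2 * N y ^ (-(2 : ℝ)))
      (fun y => hΨ.cont.comp (continuous_id.mul continuous_const).continuousOn
        fun x hx => mul_pos (hT0.trans hx) (one_pos.trans_le (hN y)))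
      ((hsum 2 one_lt_two).mul_left _) fun y x hx => ?_
    have hN0 : 0 < N y := one_pos.trans_le (hN y)
    have hx' : T / 2 < x := hx
    have hx0 : 0 < x := hT0.trans hx'
    refine (hb _ (mul_pos hx0 hN0)).trans ?_
    rw [Real.rpow_neg hN0.le, Real.rpow_two, mul_pow, ← div_eq_mul_inv, div_div]
    gcongr
  exact (h.continuousAt (Ioi_mem_nhds (half_lt_self hT))).continuousWithinAt

theorem exists_ext {a : ℝ}
    (hS : ∀ j : ℕ, ∃ C, ∀ t, 0 < t → t ≤ 1 → |S2 N Ψ (t ^ 2) - a / t ^ 2| ≤ C * t ^ j) :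
    ∃ B : ℂ → ℂ, Differentiable ℂ B ∧ ∀ s : ℂ, 1 < s.re →
      (s - 1) * (∑' y, (N y : ℂ) ^ (-s)) * mellin (fun r => (Ψ r : ℂ)) s = B s := by
  let g : ℝ → ℂ := fun T => (a : ℂ) • indicator (Ioc 0 1) (fun t : ℝ => (t : ℂ) ^ (-1 : ℂ)) T
  let S0 : ℝ → ℂ := fun T => (S2 N Ψ T : ℂ) - g T
  have h1 : LocallyIntegrableOn S0 (Ioi 0) := by
    refine LocallyIntegrableOn.sub ((continuous_ofReal.comp_continuousOn
      (continuousOn_S2 hΨ hN hsum)).locallyIntegrableOn measurableSet_Ioi) ?_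
    have h2 : ContinuousOn (fun t : ℝ => (t : ℂ) ^ (-1 : ℂ)) (Ioi 0) := fun t ht =>
      (continuousAt_ofReal_cpow_const _ _ (Or.inr (ne_of_gt ht))).continuousWithinAt
    intro x hx
    obtain ⟨u, hu, hi⟩ := h2.locallyIntegrableOn (μ := volume) measurableSet_Ioi x hx
    exact ⟨u, hu, (hi.indicator measurableSet_Ioc).smul (a : ℂ)⟩
  have h2 : ∀ b : ℝ, S0 =O[atTop] (· ^ (-b)) := by
    intro b
    refine isBigO_of_zero _ ?_
    filter_upwards [eventually_ge_atTop 2] with x hx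
    have : S2 N Ψ x = 0 := by
      rw [S2, ← tsum_zero (β := Y)]
      exact tsum_congr fun y => hΨ.top _ (by nlinarith [hN y])
    simp only [S0, g, this]
    rw [indicator_of_notMem (fun h => by linarith [h.2])]
    simp
  have h3 : ∀ j : ℕ, S0 =O[𝓝[>] 0] (· ^ (-(-(j : ℝ)))) := by
    intro j
    obtain ⟨C, hC⟩ := hS (2 * j)
    refine IsBigO.of_bound C ?_
    filter_upwards [Ioc_mem_nhdsGT one_pos] with x hx
    have := hC (√x) (Real.sqrt_pos.2 hx.1) (Real.sqrt_le_one.2 hx.2)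
    rw [pow_mul, Real.sq_sqrt hx.1.le] at this
    simp only [S0, g]
    rw [indicator_of_mem hx, cpow_neg_one, smul_eq_mul, ← div_eq_mul_inv, ← ofReal_div,
      ← ofReal_sub, norm_real, neg_neg, Real.rpow_natCast, Real.norm_of_nonneg (pow_pos hx.1 j).le]
    exact this
  refine ⟨fun s => (s - 1) * mellin S0 s + a, fun s => ?_, fun s hs => ?_⟩
  · obtain ⟨j, hj⟩ := exists_nat_gt (-s.re)
    exact ((differentiableAt_id.sub_const 1).mul (mellin_differentiableAt_of_isBigO_rpow h1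
      (h2 (s.re + 1)) (by linarith) (h3 j) (by linarith))).add_const _
  · have h4 := mellinConvergent_of_isBigO_rpow h1 (h2 (s.re + 1)) (by linarith) (h3 0)
      (s := s) (by simp; linarith)
    have h5 := hasMellin_cpow_Ioc (-1) (s := s) (by simp; linarith)
    have h6 := hasMellin_const_smul h5.1 (a : ℂ)
    have h7 := (hasMellin_add h4 h6.1).2
    simp only [S0, g, sub_add_cancel] at h7
    have hs1 : s - 1 ≠ 0 := by
      rw [sub_ne_zero]; rintro rfl; simp at hs
    rw [mul_assoc, ← mellin_S2 hΨ hN hsum hs, h7, h6.2, h5.2, smul_eq_mul, ← sub_eq_add_neg]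
    field_simp
    rfl

end Family

theorem eqOn_of_re {f g : ℂ → ℂ} (hf : DifferentiableOn ℂ f {1}ᶜ) (hg : DifferentiableOn ℂ g {1}ᶜ)
    (h : ∀ s : ℂ, 1 < s.re → f s = g s) : EqOn f g {1}ᶜ := by
  have hU : IsPreconnected ({1}ᶜ : Set ℂ) :=
    (isConnected_compl_singleton_of_one_lt_rank (by simp) 1).isPreconnected
  have h2 : f =ᶠ[𝓝 2] g := by
    have : {s : ℂ | 1 < s.re} ∈ 𝓝 (2 : ℂ) :=
      (isOpen_lt continuous_const Complex.continuous_re).mem_nhds (by simp)
    filter_upwards [this] with s hs using h s hs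
  exact (hf.analyticOnNhd isOpen_compl_singleton).eqOn_of_preconnected_of_eventuallyEq
    (hg.analyticOnNhd isOpen_compl_singleton) hU (z₀ := 2) (by simp) h2

theorem patch {F : ℂ → ℂ} (h : ∀ p : ℂ, ∃ A B : ℂ → ℂ, Differentiable ℂ A ∧ Differentiable ℂ B ∧
    A p ≠ 0 ∧ ∀ s : ℂ, 1 < s.re → (s - 1) * F s * A s = B s) :
    ∃ f : ℂ → ℂ, DifferentiableOn ℂ f {1}ᶜ ∧ ∀ s : ℂ, 1 < s.re → f s = F s := by
  choose A B hA hB h0 hF using h
  refine ⟨fun s => B s s / ((s - 1) * A s s), fun p hp => ?_, fun s hs => ?_⟩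
  · have hp1 : p - 1 ≠ 0 := sub_ne_zero.2 hp
    have h1 : DifferentiableAt ℂ (fun s => B p s / ((s - 1) * A p s)) p :=
      (hB p p).div ((differentiableAt_id.sub_const 1).mul (hA p p)) (mul_ne_zero hp1 (h0 p))
    refine (h1.congr_of_eventuallyEq ?_).differentiableWithinAt
    filter_upwards [(hA p p).continuousAt.eventually_ne (h0 p),
      isOpen_compl_singleton.mem_nhds hp] with s hs hs1
    have h2 := eqOn_of_re (f := fun z => B s z * A p z) (g := fun z => B p z * A s z)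
      ((hB s).mul (hA p)).differentiableOn ((hB p).mul (hA s)).differentiableOn
      (fun z hz => by simp only [← hF s z hz, ← hF p z hz]; ring) hs1
    have hs2 : s - 1 ≠ 0 := sub_ne_zero.2 hs1
    have := h0 s
    simp only at h2
    field_simp
    linear_combination h2
  · have hs1 : s - 1 ≠ 0 := by
      rw [sub_ne_zero]; rintro rfl; simp at hs
    have := h0 s
    simp only [← hF s s hs]
    field_simp

theorem double_zero {f A B : ℂ → ℂ} (hf : DifferentiableOn ℂ f {1}ᶜ) (hA : Differentiable ℂ A)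
    (hB : Differentiable ℂ B) (h0 : A 0 ≠ 0)
    (h : ∀ s : ℂ, 1 < s.re → (s - 1) * f s * A s = s ^ 2 * B s) : deriv f 0 = 0 := by
  have h1 := eqOn_of_re (f := fun s => (s - 1) * f s * A s) (g := fun s => s ^ 2 * B s)
    (((differentiable_id.sub_const 1).differentiableOn.mul hf).mul hA.differentiableOn)
    ((differentiable_id.pow 2).mul hB).differentiableOn h
  have h2 : f =ᶠ[𝓝 0] fun s => s ^ 2 * (B s / ((s - 1) * A s)) := by
    filter_upwards [(hA 0).continuousAt.eventually_ne h0,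
      isOpen_compl_singleton.mem_nhds (show (0 : ℂ) ∈ ({1}ᶜ : Set ℂ) by simp)] with s hs hs1
    have h3 := h1 hs1
    have hs2 : s - 1 ≠ 0 := sub_ne_zero.2 hs1
    simp only at h3
    field_simp
    linear_combination h3
  have h3 : DifferentiableAt ℂ (fun s => B s / ((s - 1) * A s)) 0 :=
    (hB 0).div ((differentiableAt_id.sub_const 1).mul (hA 0)) (mul_ne_zero (by simp) h0)
  rw [h2.deriv_eq, deriv_fun_mul (by fun_prop) h3]
  simp

/-- A narrow even bump around `1`. -/
noncomputable def bump (δ r : ℝ) : ℝ := psi ((r ^ 2 - 1) / δ)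

theorem contDiff_bump (δ : ℝ) : ContDiff ℝ (⊤ : ℕ∞) (bump δ) :=
  contDiff_psi.comp (((contDiff_id.pow 2).sub contDiff_const).div_const δ)

theorem bump_abs (δ r : ℝ) : bump δ |r| = bump δ r := by rw [bump, bump, sq_abs]

theorem bump_zero {δ r : ℝ} (hδ : 0 < δ) (h : 2 * δ ≤ |r ^ 2 - 1|) : bump δ r = 0 :=
  psi_zero (by rwa [abs_div, abs_of_pos hδ, le_div_iff₀ hδ])

theorem bump_top {δ r : ℝ} (hδ : 0 < δ) (hδ1 : δ ≤ 1 / 4) (h : 2 ≤ |r|) : bump δ r = 0 :=
  bump_zero hδ (le_trans (by nlinarith [sq_abs r]) (le_abs_self _))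

theorem test_of_le_one {Ψ : ℝ → ℝ} (h1 : Continuous Ψ) (h2 : ∀ r, 2 ≤ r → Ψ r = 0)
    (h3 : ∀ r, |Ψ r| ≤ 1) : Test Ψ := by
  refine ⟨h1.continuousOn, h2, 2, fun r hr => ?_⟩
  rcases le_total 2 r with h | h
  · rw [h2 r h, abs_zero]; positivity
  · exact (h3 r).trans ((one_le_div hr).2 h)

theorem test_bump {δ : ℝ} (hδ : 0 < δ) (hδ1 : δ ≤ 1 / 4) : Test (bump δ) :=
  test_of_le_one (contDiff_bump δ).continuous
    (fun r hr => bump_top hδ hδ1 (hr.trans (le_abs_self r)))
    fun r => by rw [bump, abs_of_nonneg (psi_nonneg _)]; exact psi_le_one _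

theorem exists_bump (p : ℂ) : ∃ δ : ℝ, 0 < δ ∧ δ ≤ 1 / 4 ∧
    Differentiable ℂ (mellin fun r => (bump δ r : ℂ)) ∧ mellin (fun r => (bump δ r : ℂ)) p ≠ 0 := by
  have h1 : ContinuousAt (fun r : ℝ => ((r : ℂ) ^ (p - 1)).re) 1 :=
    continuous_re.continuousAt.comp (continuousAt_ofReal_cpow_const _ _ (Or.inr one_ne_zero))
  obtain ⟨η, hη, h2⟩ := Metric.eventually_nhds_iff.1
    (h1.eventually (lt_mem_nhds (show (0 : ℝ) < (((1 : ℝ) : ℂ) ^ (p - 1)).re by simp)))
  set δ := min (η / 2) (1 / 4) with hδ_def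
  have hδ : 0 < δ := lt_min (half_pos hη) (by norm_num)
  have hδ1 : δ ≤ 1 / 4 := min_le_right _ _
  have hδ2 : δ ≤ η / 2 := min_le_left _ _
  have hl : LocallyIntegrableOn (fun r => (bump δ r : ℂ)) (Ioi 0) :=
    (continuous_ofReal.comp (contDiff_bump δ).continuous).continuousOn.locallyIntegrableOn
      measurableSet_Ioi
  have ht : ∀ b : ℝ, (fun r => (bump δ r : ℂ)) =O[atTop] (· ^ (-b)) := by
    intro b
    refine isBigO_of_zero _ ?_
    filter_upwards [eventually_ge_atTop 2] with x hx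
    rw [bump_top hδ hδ1 (hx.trans (le_abs_self x)), ofReal_zero]
  have hb : ∀ b : ℝ, (fun r => (bump δ r : ℂ)) =O[𝓝[>] 0] (· ^ (-b)) := by
    intro b
    refine isBigO_of_zero _ ?_
    filter_upwards [Ioc_mem_nhdsGT (show (0 : ℝ) < 1 / 2 by norm_num)] with x hx
    rw [bump_zero hδ (le_trans (by nlinarith [hx.1, hx.2]) (neg_le_abs _)), ofReal_zero]
  refine ⟨δ, hδ, hδ1, fun s => mellin_differentiableAt_of_isBigO_rpow hl (ht (s.re + 1))
    (by linarith) (hb (s.re - 1)) (by linarith), fun h0 => ?_⟩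
  have hi : IntegrableOn (fun r : ℝ => (r : ℂ) ^ (p - 1) • (bump δ r : ℂ)) (Ioi 0) :=
    mellinConvergent_of_isBigO_rpow hl (ht (p.re + 1)) (by linarith) (hb (p.re - 1)) (by linarith)
  have h3 := congrArg re h0
  have e : ∀ r : ℝ, RCLike.re ((r : ℂ) ^ (p - 1) • (bump δ r : ℂ)) =
      ((r : ℂ) ^ (p - 1)).re * bump δ r := by intro r; simp
  rw [mellin, ← RCLike.re_to_complex, ← integral_re hi, zero_re] at h3
  refine absurd h3 (ne_of_gt ((setIntegral_pos_iff_support_of_nonneg_ae ?_ hi.re).2 ?_))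
  · refine (ae_restrict_iff' measurableSet_Ioi).2 (Eventually.of_forall fun r hr => ?_)
    have hr0 : 0 < r := hr
    simp only [e, Pi.zero_apply]
    rcases le_or_gt (2 * δ) |r ^ 2 - 1| with h | h
    · rw [bump_zero hδ h, mul_zero]
    · refine mul_nonneg (h2 ?_).le (psi_nonneg _)
      rw [Real.dist_eq]
      have : |r ^ 2 - 1| = |r - 1| * (r + 1) := by
        rw [← abs_of_pos (show 0 < r + 1 by linarith), ← abs_mul]; congr 1; ring
      nlinarith [abs_nonneg (r - 1)]
  · refine Measure.measure_pos_of_mem_nhds _ (x := 1) (inter_mem ?_ (Ioi_mem_nhds one_pos))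
    simp only [e]
    refine (h1.mul (contDiff_bump δ).continuous.continuousAt).eventually_ne ?_
    simp [bump, psi_one]

/-- A bump with a logarithmic singularity. -/
noncomputable def logb (l r : ℝ) : ℝ := psi r * (1 - Real.log (r / 2) / l)

theorem test_logb {l : ℝ} (hl : 0 < l) : Test (logb l) := by
  refine ⟨contDiff_psi.continuous.continuousOn.mul (continuousOn_const.sub
    (ContinuousOn.div_const (ContinuousOn.log (by fun_prop) fun r hr => (half_pos hr).ne') _)),
    fun r hr => by rw [logb, psi_zero (hr.trans (le_abs_self r)), zero_mul], 2 + 2 / l,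
    fun r hr => ?_⟩
  rcases le_total 2 r with h | h
  · rw [logb, psi_zero (h.trans (le_abs_self r)), zero_mul, abs_zero]; positivity
  · have h1 : Real.log (r / 2) ≤ 0 := Real.log_nonpos (by positivity) (by linarith)
    have h2 : -Real.log (r / 2) ≤ 2 / r := by
      have := Real.log_le_sub_one_of_pos (show 0 < (r / 2)⁻¹ by positivity)
      rw [Real.log_inv, inv_div] at this
      linarith
    have h3 : 0 ≤ -Real.log (r / 2) / l := div_nonneg (by linarith) hl.le
    have h4 : -Real.log (r / 2) / l ≤ 2 / l / r := by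
      rw [div_right_comm]; exact div_le_div_of_nonneg_right h2 hl.le
    have h5 : 1 ≤ 2 / r := (one_le_div hr).2 h
    rw [logb, abs_mul, abs_of_nonneg (psi_nonneg _), sub_eq_add_neg, ← neg_div,
      abs_of_nonneg (by linarith), add_div]
    nlinarith [psi_le_one r, psi_nonneg r]

theorem mellin_logb {l : ℝ} (hl : 0 < l) : ∃ A : ℂ → ℂ, Differentiable ℂ A ∧ A 0 ≠ 0 ∧
    ∀ s : ℂ, 1 < s.re → s ^ 2 * mellin (fun r => (logb l r : ℂ)) s = A s := by
  have hl' : (l : ℂ) ≠ 0 := ofReal_ne_zero.2 hl.ne'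
  refine ⟨fun s => (1 + Real.log 2 / l) * (s * (1 + s * Er s)) + (1 - s ^ 2 * deriv Er s) / l,
    ?_, by simpa using hl', fun s hs => ?_⟩
  · have h1 := differentiable_Er
    have h2 : Differentiable ℂ (deriv Er) := h1.deriv
    fun_prop
  · have hs0 : 0 < s.re := one_pos.trans hs
    have hs1 : s ≠ 0 := by rintro rfl; simp at hs0
    obtain ⟨h1, h2⟩ := mellin_hasDerivAt_of_isBigO_rpow (f := fun r => (psi r : ℂ)) (s := s)
      (a := s.re + 1) (b := 0)
      ((continuous_ofReal.comp contDiff_psi.continuous).continuousOn.locallyIntegrableOn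
        measurableSet_Ioi) (isBigO_of_zero _ (by
          filter_upwards [eventually_ge_atTop 2] with x hx
          rw [psi_zero (hx.trans (le_abs_self x)), ofReal_zero])) (by linarith)
      (IsBigO.of_bound 1 (Eventually.of_forall fun x => by
        simp [abs_of_nonneg (psi_nonneg x), psi_le_one])) hs0
    have h3 : HasDerivAt (mellin fun r => (psi r : ℂ)) (-(s ^ 2)⁻¹ + deriv Er s) s := by
      refine ((hasDerivAt_inv hs1).add (differentiable_Er s).hasDerivAt).congr_of_eventuallyEq ?_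
      filter_upwards [(isOpen_lt continuous_const continuous_re).mem_nhds hs0] with z hz
      have hz1 : z ≠ 0 := by rintro rfl; simp at hz
      have := mellin_psi hz
      simp only [Pi.add_apply]
      field_simp
      linear_combination this
    have h4 := hasMellin_const_smul (mc_psi hs0) ((1 + Real.log 2 / l : ℝ) : ℂ)
    have h5 := hasMellin_const_smul h1 (l⁻¹ : ℂ)
    have h6 := (hasMellin_sub h4.1 h5.1).2
    have h7 : mellin (fun r => (logb l r : ℂ)) s = mellin (fun r =>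
        ((1 + Real.log 2 / l : ℝ) : ℂ) • (psi r : ℂ) - (l⁻¹ : ℂ) • Real.log r • (psi r : ℂ)) s := by
      refine setIntegral_congr_fun measurableSet_Ioi fun r hr => ?_
      simp only [logb, Real.log_div (ne_of_gt hr) two_ne_zero, smul_eq_mul, real_smul]
      push_cast
      ring
    rw [h7, h6, h4.2, h5.2, h2.unique h3]
    simp only [← mellin_psi hs0, smul_eq_mul]
    push_cast
    field_simp
    ring

end Pool.Agent.Lib.helper5.Mel
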