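import Mathlib

open Set Filter Topology

namespace Pool.Agent.Lib.helper5.Lat

variable {ι : Type} [Fintype ι]

/-- The periodised, rescaled lattice sum. -/
noncomputable def P (g : (ι → ℝ) → ℝ) (t : ℝ) (z : ι → ℝ) : ℝ :=
  ∑' n : ι → ℤ, g (t • (z + fun i => (n i : ℝ)))

/-- Directional derivative. -/
noncomputable def D (v : ι → ℝ) (g : (ι → ℝ) → ℝ) (x : ι → ℝ) : ℝ := fderiv ℝ g x v

/-- Smooth and vanishing outside the ball of radius `R`. -/
structure Good (R : ℝ) (g : (ι → ℝ) → ℝ) : Prop where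
  sm : ContDiff ℝ (⊤ : ℕ∞) g
  supp : ∀ x, R < ‖x‖ → g x = 0

theorem Good.D {R : ℝ} {g : (ι → ℝ) → ℝ} (h : Good R g) (v : ι → ℝ) : Good R (D v g) := by
  refine ⟨?_, fun x hx => ?_⟩
  · exact (h.sm.fderiv_right (m := (⊤ : ℕ∞)) (by simp)).clm_apply contDiff_const
  · have : g =ᶠ[𝓝 x] fun _ => 0 := by
      filter_upwards [(isOpen_lt continuous_const continuous_norm).mem_nhds hx] with y hy
      exact h.supp y hy
    rw [Lat.D, this.fderiv_eq]; simp

theorem exists_good {g : (ι → ℝ) → ℝ} (hg : ContDiff ℝ (⊤ : ℕ∞) g) (hc : HasCompactSupport g) :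
    ∃ R, 0 ≤ R ∧ Good R g := by
  obtain ⟨R, hR⟩ := hc.isCompact.isBounded.subset_closedBall 0
  refine ⟨max R 0, le_max_right _ _, hg, fun x hx => ?_⟩
  by_contra h
  have := hR (subset_tsupport _ h)
  rw [mem_closedBall_zero_iff] at this
  exact absurd (this.trans (le_max_left R 0)) (not_le.2 hx)

open Classical in
/-- A box of lattice points. -/
noncomputable def box (z : ι → ℝ) (B : ℝ) : Finset (ι → ℤ) :=
  Fintype.piFinset fun i => Finset.Icc ⌈-z i - B⌉ ⌊-z i + B⌋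

theorem mem_box {z : ι → ℝ} {B : ℝ} {n : ι → ℤ} (h : ‖z + fun i => (n i : ℝ)‖ ≤ B) :
    n ∈ box z B := by
  classical
  rw [box, Fintype.mem_piFinset]
  intro i
  have := (norm_le_pi_norm _ i).trans h
  rw [Real.norm_eq_abs, abs_le] at this
  simp only [Pi.add_apply] at this
  rw [Finset.mem_Icc, Int.ceil_le, Int.le_floor]
  constructor <;> linarith [this.1, this.2]

theorem card_box (z : ι → ℝ) {B : ℝ} (hB : 0 ≤ B) :
    ((box z B).card : ℝ) ≤ (2 * B + 1) ^ Fintype.card ι := by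
  classical
  rw [box, Fintype.card_piFinset, Nat.cast_prod, ← Finset.card_univ, ← Finset.prod_const]
  refine Finset.prod_le_prod (fun _ _ => Nat.cast_nonneg _) fun i _ => ?_
  rw [Int.card_Icc]
  have h1 := Int.floor_le (-z i + B)
  have h2 := Int.le_ceil (-z i - B)
  rcases le_total (⌊-z i + B⌋ + 1 - ⌈-z i - B⌉) 0 with h | h
  · rw [Int.toNat_of_nonpos h]; simp only [Nat.cast_zero]; linarith
  · have : (((⌊-z i + B⌋ + 1 - ⌈-z i - B⌉).toNat : ℤ) : ℝ) =
        ((⌊-z i + B⌋ + 1 - ⌈-z i - B⌉ : ℤ) : ℝ) := by rw [Int.toNat_of_nonneg h]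
    push_cast at this
    rw [this]; linarith

theorem zero_of_not_mem {R : ℝ} {g : (ι → ℝ) → ℝ} (h : ∀ x, R < ‖x‖ → g x = 0) {t : ℝ}
    (ht : 0 < t) {z w : ι → ℝ} {δ : ℝ} (hw : ‖w - z‖ ≤ δ) {n : ι → ℤ}
    (hn : n ∉ box z (R / t + δ)) : g (t • (w + fun i => (n i : ℝ))) = 0 := by
  refine h _ ?_
  by_contra hle
  rw [not_lt, norm_smul, Real.norm_of_nonneg ht.le, mul_comm, ← le_div_iff₀ ht] at hle
  refine hn (mem_box ?_)
  have : (z + fun i => (n i : ℝ)) = (w + fun i => (n i : ℝ)) - (w - z) := by abel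
  rw [this]
  exact (norm_sub_le _ _).trans (add_le_add hle hw)

theorem hasSum_P {R : ℝ} {g : (ι → ℝ) → ℝ} (h : ∀ x, R < ‖x‖ → g x = 0) {t : ℝ}
    (ht : 0 < t) {z w : ι → ℝ} {δ : ℝ} (hw : ‖w - z‖ ≤ δ) :
    HasSum (fun n : ι → ℤ => g (t • (w + fun i => (n i : ℝ))))
      (∑ n ∈ box z (R / t + δ), g (t • (w + fun i => (n i : ℝ)))) :=
  hasSum_sum_of_ne_finset_zero fun _ hn => zero_of_not_mem h ht hw hn

theorem Good.summable {R : ℝ} {g : (ι → ℝ) → ℝ} (h : Good R g) {t : ℝ} (ht : 0 < t)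
    (z : ι → ℝ) : Summable fun n : ι → ℤ => g (t • (z + fun i => (n i : ℝ))) :=
  (hasSum_P h.supp ht (z := z) (δ := 0) (by simp)).summable

theorem Good.bound {R : ℝ} (hR : 0 ≤ R) {g : (ι → ℝ) → ℝ} (h : Good R g) :
    ∃ C, 0 ≤ C ∧ ∀ t, 0 < t → t ≤ 1 → ∀ z, |P g t z| ≤ C / t ^ Fintype.card ι := by
  obtain ⟨M, hM⟩ := (isCompact_closedBall (0 : ι → ℝ) R).exists_bound_of_continuousOn
    h.sm.continuous.continuousOn
  have hM0 : 0 ≤ M := (norm_nonneg _).trans (hM 0 (by simpa using hR))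
  have hM' : ∀ x, |g x| ≤ M := by
    intro x
    rcases le_or_gt ‖x‖ R with hx | hx
    · exact hM x (by simpa using hx)
    · rw [h.supp x hx, abs_zero]; exact hM0
  refine ⟨(2 * R + 1) ^ Fintype.card ι * M, by positivity, fun t ht ht1 z => ?_⟩
  rw [P, (hasSum_P h.supp ht (z := z) (δ := 0) (by simp)).tsum_eq]
  refine (Finset.abs_sum_le_sum_abs _ _).trans ?_
  refine (Finset.sum_le_card_nsmul _ _ M fun n _ => hM' _).trans ?_
  rw [nsmul_eq_mul, mul_div_right_comm, ← div_pow]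
  refine mul_le_mul_of_nonneg_right ((card_box z (by positivity)).trans ?_) hM0
  refine pow_le_pow_left₀ (by positivity) ?_ _
  rw [add_zero, add_div, mul_div_assoc]
  have : 1 ≤ 1 / t := by rw [le_div_iff₀ ht]; linarith
  linarith

theorem Good.hasDerivAt {R : ℝ} {g : (ι → ℝ) → ℝ} (h : Good R g) {t : ℝ} (ht : 0 < t)
    (z v : ι → ℝ) (r : ℝ) :
    HasDerivAt (fun r : ℝ => P g t (z + r • v)) (t * P (Lat.D v g) t (z + r • v)) r := by
  have h1 : HasDerivAt (fun r' : ℝ => ∑ n ∈ box (z + r • v) (R / t + ‖v‖),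
      g (t • ((z + r' • v) + fun i => (n i : ℝ))))
      (∑ n ∈ box (z + r • v) (R / t + ‖v‖),
        t * Lat.D v g (t • ((z + r • v) + fun i => (n i : ℝ)))) r := by
    refine HasDerivAt.fun_sum fun n _ => ?_
    have h2 : HasDerivAt (fun r' : ℝ => t • ((z + r' • v) + fun i => (n i : ℝ))) (t • v) r := by
      have := ((((hasDerivAt_id r).smul_const v).const_add z).add_const
        (fun i => (n i : ℝ))).const_smul t
      rw [one_smul] at this
      exact this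
    have h3 := ((h.sm.differentiable (by simp)) _).hasFDerivAt.comp_hasDerivAt r h2
    refine h3.congr_deriv ?_
    rw [map_smul, smul_eq_mul, Lat.D]
  rw [← Finset.mul_sum, ← (hasSum_P (h.D v).supp ht (δ := ‖v‖) (by simp)).tsum_eq] at h1
  refine h1.congr_of_eventuallyEq ?_
  filter_upwards [Metric.ball_mem_nhds r one_pos] with r' hr'
  refine (hasSum_P h.supp ht ?_).tsum_eq
  rw [Metric.mem_ball, Real.dist_eq] at hr'
  rw [add_sub_add_left_eq_sub, ← sub_smul, norm_smul, Real.norm_eq_abs]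
  exact mul_le_of_le_one_left (norm_nonneg _) hr'.le

omit [Fintype ι] in
theorem P_add_int (g : (ι → ℝ) → ℝ) (t : ℝ) (z : ι → ℝ) (k : ι → ℤ) :
    P g t (z + fun i => (k i : ℝ)) = P g t z := by
  rw [P, P, ← (Equiv.addLeft k).tsum_eq fun n : ι → ℤ => g (t • (z + fun i => (n i : ℝ)))]
  refine tsum_congr fun n => ?_
  congr 2
  ext i; simp [add_assoc]

theorem Good.osc {R : ℝ} {g : (ι → ℝ) → ℝ} (h : Good R g) {t : ℝ} (ht : 0 < t)
    (z v : ι → ℝ) {B : ℝ} (hB : ∀ w, |P (Lat.D v g) t w| ≤ B) {r : ℝ} (hr0 : 0 ≤ r)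
    (hr1 : r ≤ 1) : |P g t (z + r • v) - P g t z| ≤ t * B := by
  have hB0 : 0 ≤ B := (abs_nonneg _).trans (hB 0)
  have := (convex_univ (𝕜 := ℝ) (E := ℝ)).norm_image_sub_le_of_norm_hasDerivWithin_le
    (f := fun r : ℝ => P g t (z + r • v)) (C := t * B)
    (fun x _ => (h.hasDerivAt ht z v x).hasDerivWithinAt)
    (fun x _ => by
      rw [norm_mul, Real.norm_of_nonneg ht.le, Real.norm_eq_abs]
      exact mul_le_mul_of_nonneg_left (hB _) ht.le) (mem_univ 0) (mem_univ r)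
  simp only [zero_smul, add_zero, sub_zero, Real.norm_eq_abs] at this
  refine this.trans ?_
  rw [abs_of_nonneg hr0]
  exact mul_le_of_le_one_right (by positivity) hr1

theorem bound_D {R : ℝ} (hR : 0 ≤ R) (k : ι → ℤ) (j : ℕ) : ∀ g : (ι → ℝ) → ℝ, Good R g →
    ∃ C, 0 ≤ C ∧ ∀ t, 0 < t → t ≤ 1 → ∀ z,
      |P (D (fun i => (k i : ℝ)) g) t z| ≤ C * t ^ j / t ^ Fintype.card ι := by
  induction j with
  | zero => intro g h; simpa using (h.D _).bound hR
  | succ j ih =>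
    intro g h
    obtain ⟨C, hC0, hC⟩ := ih _ (h.D fun i => (k i : ℝ))
    refine ⟨C, hC0, fun t ht ht1 z => ?_⟩
    obtain ⟨r, hr, h0⟩ := exists_hasDerivAt_eq_zero (a := 0) (b := 1) one_pos
      (f := fun r : ℝ => P g t (z + r • fun i => (k i : ℝ)))
      (fun x _ => (h.hasDerivAt ht z _ x).continuousAt.continuousWithinAt)
      (by simp [P_add_int]) (fun x _ => h.hasDerivAt ht z _ x)
    have h1 := (h.D fun i => (k i : ℝ)).osc ht z _ (hC t ht ht1) hr.1.le hr.2.le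
    rw [(mul_eq_zero.1 h0).resolve_left ht.ne', zero_sub, abs_neg] at h1
    refine h1.trans (le_of_eq ?_)
    ring

theorem P_D_eq {R : ℝ} {g : (ι → ℝ) → ℝ} (h : Good R g) {t : ℝ} (ht : 0 < t) (v z : ι → ℝ)
    [DecidableEq ι] :
    P (D v g) t z = ∑ i, v i * P (D (fun j => ((Pi.single i 1 : ι → ℤ) j : ℝ)) g) t z := by
  simp only [P, ← tsum_mul_left]
  rw [← Summable.tsum_finsetSum fun i _ => ((h.D _).summable ht z).mul_left _]
  refine tsum_congr fun n => ?_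
  simp only [D, ← smul_eq_mul, ← map_smul, ← map_sum]
  congr 1
  ext j
  simp [Finset.sum_apply, Pi.single_apply]

/-- Oscillation of lattice sums is smaller than any power of the scale. -/
theorem Good.osc_small {R : ℝ} (hR : 0 ≤ R) {g : (ι → ℝ) → ℝ} (h : Good R g) (j : ℕ) :
    ∃ C, 0 ≤ C ∧ ∀ t, 0 < t → t ≤ 1 → ∀ z v, |P g t (z + v) - P g t z| ≤ C * ‖v‖ * t ^ j := by
  classical
  choose C hC0 hC using fun i : ι => bound_D hR (Pi.single i 1) (j + Fintype.card ι) g h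
  refine ⟨∑ i, C i, Finset.sum_nonneg fun i _ => hC0 i, fun t ht ht1 z v => ?_⟩
  have h1 := h.osc ht z v (B := (∑ i, C i) * ‖v‖ * t ^ j) (fun w => by
    rw [P_D_eq h ht, Finset.sum_mul, Finset.sum_mul]
    refine (Finset.abs_sum_le_sum_abs _ _).trans (Finset.sum_le_sum fun i _ => ?_)
    have := hC i t ht ht1 w
    rw [pow_add, ← mul_assoc, mul_div_cancel_right₀ _ (by positivity)] at this
    rw [abs_mul, mul_right_comm, mul_comm]
    exact mul_le_mul this (norm_le_pi_norm v i) (abs_nonneg _) (mul_nonneg (hC0 i) (by positivity)))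
    zero_le_one le_rfl
  rw [one_smul] at h1
  refine h1.trans (mul_le_of_le_one_left ?_ ht1)
  exact mul_nonneg (mul_nonneg (Finset.sum_nonneg fun i _ => hC0 i) (norm_nonneg _)) (by positivity)

omit [Fintype ι] in
theorem P_zero_of_odd {g : (ι → ℝ) → ℝ} (h : ∀ x, g (-x) = -g x) (t : ℝ) : P g t 0 = 0 := by
  have h1 : P g t 0 = -P g t 0 := by
    rw [P, ← tsum_neg, ← (Equiv.neg (ι → ℤ)).tsum_eq]
    refine tsum_congr fun n => ?_
    rw [← h]
    congr 1
    ext i; simp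
  linarith

/-- Lattice sums of odd test functions are small. -/
theorem odd_small {g : (ι → ℝ) → ℝ} (hg : ContDiff ℝ (⊤ : ℕ∞) g) (hc : HasCompactSupport g)
    (h : ∀ x, g (-x) = -g x) (z : ι → ℝ) (j : ℕ) :
    ∃ C, ∀ t, 0 < t → (Summable fun n : ι → ℤ => g (t • (z + fun i => (n i : ℝ)))) ∧
      (t ≤ 1 → |P g t z| ≤ C * t ^ j) := by
  obtain ⟨R, hR, hG⟩ := exists_good hg hc
  obtain ⟨C, -, hC⟩ := hG.osc_small hR j
  refine ⟨C * ‖z‖, fun t ht => ⟨hG.summable ht z, fun ht1 => ?_⟩⟩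
  have := hC t ht ht1 0 z
  rwa [zero_add, P_zero_of_odd h, sub_zero] at this

end Pool.Agent.Lib.helper5.Lat
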