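import Mathlib

open Set Filter Topology MeasureTheory Complex Asymptotics

namespace Pool.Agent.Lib.helper5.Mel

/-- An even smooth bump. -/
noncomputable def psi (r : ℝ) : ℝ := Real.smoothTransition (2 - r ^ 2)

theorem psi_one {r : ℝ} (h : |r| ≤ 1) : psi r = 1 :=
  Real.smoothTransition.one_of_one_le (by nlinarith [sq_abs r, abs_nonneg r])

theorem psi_zero {r : ℝ} (h : 2 ≤ |r|) : psi r = 0 :=
  Real.smoothTransition.zero_of_nonpos (by nlinarith [sq_abs r, abs_nonneg r])

theorem psi_nonneg (r : ℝ) : 0 ≤ psi r := Real.smoothTransition.nonneg _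

theorem psi_le_one (r : ℝ) : psi r ≤ 1 := Real.smoothTransition.le_one _

theorem psi_abs (r : ℝ) : psi |r| = psi r := by rw [psi, psi, sq_abs]

theorem contDiff_psi : ContDiff ℝ (⊤ : ℕ∞) psi :=
  Real.smoothTransition.contDiff.comp (contDiff_const.sub (contDiff_id.pow 2))

theorem psi_le {r : ℝ} (hr : 0 < r) : psi r ≤ 4 / r ^ 2 := by
  rcases le_total 2 r with h | h
  · rw [psi_zero (h.trans (le_abs_self r))]; positivity
  · refine (psi_le_one r).trans ?_
    rw [le_div_iff₀ (by positivity)]; nlinarith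

theorem isBigO_of_zero {l : Filter ℝ} {f : ℝ → ℂ} (g : ℝ → ℝ) (h : ∀ᶠ x in l, f x = 0) :
    f =O[l] g :=
  (isBigO_zero g l).congr' (h.mono fun _ hx => hx.symm) EventuallyEq.rfl

theorem mc_psi {s : ℂ} (hs : 0 < s.re) : MellinConvergent (fun r => (psi r : ℂ)) s := by
  refine mellinConvergent_of_isBigO_rpow (a := s.re + 1) (b := 0)
    ((continuous_ofReal.comp contDiff_psi.continuous).continuousOn.locallyIntegrableOn
      measurableSet_Ioi) (isBigO_of_zero _ ?_) (by linarith) ?_ hs
  · filter_upwards [eventually_ge_atTop 2] with x hx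
    rw [psi_zero (hx.trans (le_abs_self x)), ofReal_zero]
  · refine IsBigO.of_bound 1 (Eventually.of_forall fun x => ?_)
    simp [abs_of_nonneg (psi_nonneg x), psi_le_one]

/-- The regular part of the Mellin transform of the bump. -/
noncomputable def Er (s : ℂ) : ℂ :=
  mellin (fun r => (psi r : ℂ) - indicator (Ioc 0 1) (fun _ => (1 : ℂ)) r) s

theorem differentiable_Er : Differentiable ℂ Er := by
  intro s
  refine mellin_differentiableAt_of_isBigO_rpow (a := s.re + 1) (b := s.re - 1) ?_
    (isBigO_of_zero _ ?_) (by linarith) (isBigO_of_zero _ ?_) (by linarith)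
  · refine LocallyIntegrableOn.sub
      ((continuous_ofReal.comp contDiff_psi.continuous).continuousOn.locallyIntegrableOn
        measurableSet_Ioi) ?_
    exact ((integrable_indicator_iff measurableSet_Ioc).2
      (integrableOn_const (by simp))).locallyIntegrable.locallyIntegrableOn _
  · filter_upwards [eventually_ge_atTop 2] with x hx
    rw [psi_zero (hx.trans (le_abs_self x)), indicator_of_notMem (fun h => by linarith [h.2])]
    simp
  · filter_upwards [Ioc_mem_nhdsGT one_pos] with x hx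
    rw [psi_one (by rw [abs_of_pos hx.1]; exact hx.2), indicator_of_mem hx]
    simp

theorem mellin_psi {s : ℂ} (hs : 0 < s.re) :
    s * mellin (fun r => (psi r : ℂ)) s = 1 + s * Er s := by
  have h := (hasMellin_sub (mc_psi hs) (hasMellin_one_Ioc hs).1).2
  have hs0 : s ≠ 0 := by rintro rfl; simp at hs
  rw [Er, h, (hasMellin_one_Ioc hs).2]
  field_simp
  ring

variable {Y : Type} [Countable Y] (c N : Y → ℝ)

/-- A smoothed signed counting function. -/
noncomputable def S (T : ℝ) : ℝ := ∑' y, c y * psi (T * N y)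

variable (hc : ∀ y, |c y| ≤ 1) (hN : ∀ y, 1 ≤ N y)
  (hsum : ∀ σ : ℝ, 1 < σ → Summable fun y => N y ^ (-σ))
include hc hN hsum

theorem mellin_S {s : ℂ} (hs : 1 < s.re) :
    mellin (fun T => (S c N T : ℂ)) s =
      (∑' y, c y * (N y : ℂ) ^ (-s)) * mellin (fun r => (psi r : ℂ)) s := by
  have hN0 : ∀ y, 0 < N y := fun y => one_pos.trans_le (hN y)
  have key : ∀ (s : ℂ), 0 < s.re → ∀ (a : ℝ) (y : Y),
      MellinConvergent (fun T => ((a * psi (T * N y) : ℝ) : ℂ)) s ∧
      mellin (fun T => ((a * psi (T * N y) : ℝ) : ℂ)) s =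
        a * (N y : ℂ) ^ (-s) * mellin (fun r => (psi r : ℂ)) s := by
    intro s hs a y
    have h1 := (MellinConvergent.comp_mul_left (hN0 y)).mpr (mc_psi hs)
    simp only [mul_comm (N y)] at h1
    have h2 := hasMellin_const_smul h1 (a : ℂ)
    simp only [smul_eq_mul, ← ofReal_mul] at h2
    refine ⟨h2.1, ?_⟩
    rw [h2.2, mellin_comp_mul_right (fun r => (psi r : ℂ)) s (hN0 y), smul_eq_mul, mul_assoc]
  have hs0 : 0 < s.re := one_pos.trans hs
  have hnorm : ∀ y, ((∫ T in Ioi (0 : ℝ), ‖(T : ℂ) ^ (s - 1) • ((c y * psi (T * N y) : ℝ) : ℂ)‖ : ℝ) : ℂ)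
      = (|c y| : ℝ) * (N y : ℂ) ^ (-(s.re : ℂ)) * mellin (fun r => (psi r : ℂ)) s.re := by
    intro y
    rw [← (key s.re (by simpa using hs0) _ y).2, mellin, ← integral_complex_ofReal]
    refine setIntegral_congr_fun measurableSet_Ioi fun X hX => ?_
    have hX0 : 0 < X := hX
    simp only [smul_eq_mul]
    rw [norm_mul, norm_cpow_eq_rpow_re_of_pos hX0, norm_real, Real.norm_eq_abs, abs_mul,
      abs_of_nonneg (psi_nonneg _), ofReal_mul, ofReal_cpow hX0.le]
    simp
  have hsm : ∀ (s : ℂ), 1 < s.re → ∀ a : Y → ℝ, (∀ y, |a y| ≤ 1) →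
      Summable fun y => (a y : ℂ) * (N y : ℂ) ^ (-s) := by
    intro s hs a ha
    refine Summable.of_norm_bounded (hsum _ hs) fun y => ?_
    rw [norm_mul, norm_cpow_eq_rpow_re_of_pos (hN0 y), norm_real, Real.norm_eq_abs, neg_re]
    exact mul_le_of_le_one_left (Real.rpow_nonneg (hN0 y).le _) (ha y)
  have hs2 : Summable fun y =>
      ∫ T in Ioi (0 : ℝ), ‖(T : ℂ) ^ (s - 1) • ((c y * psi (T * N y) : ℝ) : ℂ)‖ := by
    rw [← summable_ofReal]
    simp only [hnorm]
    exact (hsm _ (by simpa using hs) _ (fun y => by simpa using hc y)).mul_right _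
  have h := hasSum_integral_of_summable_integral_norm (μ := volume.restrict (Ioi 0))
    (F := fun y (T : ℝ) => (T : ℂ) ^ (s - 1) • ((c y * psi (T * N y) : ℝ) : ℂ))
    (fun y => (key s hs0 _ y).1) hs2
  refine HasSum.unique ?_ ((hsm s hs c hc).hasSum.mul_right _)
  simp only [← (key s hs0 _ _).2]
  have e : mellin (fun T => (S c N T : ℂ)) s = ∫ T in Ioi (0 : ℝ),
      ∑' y, (T : ℂ) ^ (s - 1) • ((c y * psi (T * N y) : ℝ) : ℂ) := by
    rw [mellin]
    refine setIntegral_congr_fun measurableSet_Ioi fun X _ => ?_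
    simp only [smul_eq_mul]
    rw [tsum_mul_left, S, ofReal_tsum]
  rw [e]
  exact h

omit [Countable Y] in
theorem continuousOn_S : ContinuousOn (S c N) (Ioi 0) := by
  intro T hT
  have hT0 : 0 < T / 2 := half_pos hT
  have h : ContinuousOn (S c N) (Ioi (T / 2)) := by
    refine continuousOn_tsum (u := fun y => 4 / (T / 2) ^ 2 * N y ^ (-(2 : ℝ)))
      (fun y => (continuous_const.mul (contDiff_psi.continuous.comp
        (continuous_id.mul continuous_const))).continuousOn)
      ((hsum 2 one_lt_two).mul_left _) fun y x hx => ?_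
    have hN0 : 0 < N y := one_pos.trans_le (hN y)
    have hx' : T / 2 < x := hx
    have hx0 : 0 < x := hT0.trans hx'
    rw [norm_mul, Real.norm_of_nonneg (psi_nonneg _), Real.norm_eq_abs]
    refine (mul_le_of_le_one_left (psi_nonneg _) (hc y)).trans
      ((psi_le (mul_pos hx0 hN0)).trans ?_)
    rw [Real.rpow_neg hN0.le, Real.rpow_two, mul_pow, ← div_eq_mul_inv, div_div]
    gcongr
  exact (h.continuousAt (Ioi_mem_nhds (half_lt_self hT))).continuousWithinAt

omit hc hsum [Countable Y] in
theorem S_zero {T : ℝ} (hT : 2 ≤ T) : S c N T = 0 := by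
  rw [S, ← tsum_zero (β := Y)]
  refine tsum_congr fun y => ?_
  rw [psi_zero, mul_zero]
  exact le_trans (by nlinarith [hN y]) (le_abs_self _)

theorem vanish {C : ℝ} (hS : ∀ t, 0 < t → t ≤ 1 → |S c N (t ^ 2)| ≤ C * t) {f : ℂ → ℂ}
    (hf : DifferentiableOn ℂ f {1}ᶜ)
    (hfs : ∀ s : ℂ, 1 < s.re → f s = ∑' y, c y * (N y : ℂ) ^ (-s)) : f 0 = 0 := by
  let U : Set ℂ := {s | -1 / 2 < s.re} ∩ {s | s.re - s.im < 1 / 2}
  have hUo : IsOpen U := (isOpen_lt continuous_const continuous_re).inter
    (isOpen_lt (continuous_re.sub continuous_im) continuous_const)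
  have hUc : Convex ℝ U := (convex_halfSpace_re_gt _).inter
    (convex_halfSpace_lt (f := fun s : ℂ => s.re - s.im)
      ⟨fun x y => by simp only [add_re, add_im]; ring,
        fun a x => by simp only [real_smul, mul_re, mul_im, ofReal_re, ofReal_im, smul_eq_mul]; ring⟩ _)
  have h1 : DifferentiableOn ℂ (fun s => s * mellin (fun T => (S c N T : ℂ)) s) U := by
    intro s hs
    refine (differentiableAt_id.mul ?_).differentiableWithinAt
    refine mellin_differentiableAt_of_isBigO_rpow (a := s.re + 1) (b := -1 / 2)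
      ((continuous_ofReal.comp_continuousOn (continuousOn_S c N hc hN hsum)).locallyIntegrableOn
        measurableSet_Ioi) (isBigO_of_zero _ ?_) (by linarith) ?_ hs.1
    · filter_upwards [eventually_ge_atTop 2] with x hx
      rw [S_zero c N hN hx, ofReal_zero]
    · refine IsBigO.of_bound C ?_
      filter_upwards [Ioc_mem_nhdsGT one_pos] with x hx
      have := hS (√x) (Real.sqrt_pos.2 hx.1) (Real.sqrt_le_one.2 hx.2)
      rw [Real.sq_sqrt hx.1.le] at this
      rw [norm_real, Real.norm_eq_abs, Real.norm_of_nonneg (Real.rpow_nonneg hx.1.le _)]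
      refine this.trans (le_of_eq ?_)
      rw [Real.sqrt_eq_rpow]; norm_num
  have h2 : DifferentiableOn ℂ (fun s => (1 + s * Er s) * f s) U := by
    refine ((differentiable_id.mul differentiable_Er).const_add 1).differentiableOn.mul
      (hf.mono fun s hs h => ?_)
    rw [mem_singleton_iff] at h
    have := hs.2
    rw [h] at this
    norm_num at this
  have h3 : (fun s => s * mellin (fun T => (S c N T : ℂ)) s) =ᶠ[𝓝 (2 + 2 * I)]
      fun s => (1 + s * Er s) * f s := by
    have : {s : ℂ | 1 < s.re} ∈ 𝓝 (2 + 2 * I : ℂ) :=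
      (isOpen_lt continuous_const continuous_re).mem_nhds (by simp)
    filter_upwards [this] with s hs
    rw [mellin_S c N hc hN hsum hs, hfs s hs, ← mellin_psi (one_pos.trans hs)]
    ring
  have h4 := (h1.analyticOnNhd hUo).eqOn_of_preconnected_of_eventuallyEq (h2.analyticOnNhd hUo)
    hUc.isPreconnected (z₀ := 2 + 2 * I) ⟨by simp; norm_num, by simp⟩ h3
    (x := 0) ⟨by simp; norm_num, by simp⟩
  simpa using h4.symm

end Pool.Agent.Lib.helper5.Mel
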